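import Pool.Agent.H55.CU.Targets

/-!
# The mean weights of the small excursions: board `cou_modules`, row `KME`
-/

set_option autoImplicit false

open MeasureTheory ProbabilityTheory Filter Topology
open scoped ENNReal
open Pool.Agent.H95 Pool.Agent.H95.Cop Pool.Agent.H96.Cop Pool.Agent.H55.CU

namespace Pool.Agent.H4.CU

/-- lower bound of the tail -/
theorem tail_low' (K : PMF ℕ) (α c : ℝ) (hα : 0 < α) (hα1 : α ≤ 1) (hc : 0 < c) (n0 : ℕ)
    (hlow : ∀ n : ℕ, n0 ≤ n → 7 / 8 * c * (n : ℝ) ^ (-(1 + α)) ≤ kk K n) (k : ℕ) (hk1 : 1 ≤ k)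
    (hk : n0 ≤ k) : 7 / 8 * (1 - α) * (c / α * (k : ℝ) ^ (-α)) ≤ tailK K (k + 1) := by
  have hk0 : (0:ℝ) < k := by exact_mod_cast hk1
  have h1 : ∀ N : ℕ, k + 1 ≤ N →
      7 / 8 * c * ((((k + 1 : ℕ) : ℝ) ^ (-α) - (N : ℝ) ^ (-α)) / α) ≤ tailK K (k + 1) := by
    intro N hN
    refine le_trans ?_ (sum_kk_Ico_le K (k + 1) N hN)
    refine le_trans (mul_le_mul_of_nonneg_left (sum_pow_low hα (by omega) hN) (by positivity)) ?_
    rw [Finset.mul_sum]
    apply Finset.sum_le_sum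
    intro n hn
    rw [Finset.mem_Ico] at hn
    exact hlow n (by omega)
  have h2 : Tendsto (fun N : ℕ => 7 / 8 * c * ((((k + 1 : ℕ) : ℝ) ^ (-α) - (N : ℝ) ^ (-α)) / α))
      atTop (𝓝 (7 / 8 * c * ((((k + 1 : ℕ) : ℝ) ^ (-α) - 0) / α))) := by
    apply Tendsto.const_mul
    apply Tendsto.div_const
    apply Tendsto.sub tendsto_const_nhds
    exact (tendsto_rpow_neg_atTop hα).comp tendsto_natCast_atTop_atTop
  have h3 : 7 / 8 * c * ((((k + 1 : ℕ) : ℝ) ^ (-α) - 0) / α) ≤ tailK K (k + 1) := by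
    refine le_of_tendsto h2 ?_
    filter_upwards [eventually_ge_atTop (k + 1)] with N hN
    exact h1 N hN
  refine le_trans ?_ h3
  rw [sub_zero]
  have h4 : (1 - α) * (k : ℝ) ^ (-α) ≤ ((k + 1 : ℕ) : ℝ) ^ (-α) := by
    have h5 : ((2:ℝ) * k) ^ (-α) ≤ ((k + 1 : ℕ) : ℝ) ^ (-α) := by
      apply Real.rpow_le_rpow_of_nonpos (by positivity) _ (by linarith)
      push_cast
      have : (1:ℝ) ≤ k := by exact_mod_cast hk1
      linarith
    refine le_trans ?_ h5
    rw [Real.mul_rpow (by norm_num) hk0.le]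
    apply mul_le_mul_of_nonneg_right _ (Real.rpow_nonneg hk0.le _)
    rw [Real.rpow_def_of_pos (by norm_num)]
    have h6 := Real.add_one_le_exp (Real.log 2 * -α)
    have h7 : Real.log 2 ≤ 1 := by
      have := Real.log_two_lt_d9
      linarith
    nlinarith
  calc 7 / 8 * (1 - α) * (c / α * (k : ℝ) ^ (-α)) = 7 / 8 * (c / α) * ((1 - α) * (k : ℝ) ^ (-α)) := by
        ring
    _ ≤ 7 / 8 * (c / α) * (((k + 1 : ℕ) : ℝ) ^ (-α)) :=
        mul_le_mul_of_nonneg_left h4 (by positivity)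
    _ = _ := by ring

theorem red (f : ℕ → ℝ) (k : ℕ) (hf : ∀ j, 0 ≤ f j) (hz : ∀ j, k ≤ j → f j = 0) (N : ℕ) :
    ∑ j ∈ Finset.range N, f j ≤ ∑ j ∈ Finset.range k, f j := by
  have h1 : ∑ j ∈ Finset.range N, f j = ∑ j ∈ (Finset.range N).filter (fun j => j < k), f j := by
    rw [Finset.sum_filter_of_ne]
    intro j _ hj
    by_contra hc
    exact hj (hz j (by omega))
  rw [h1]
  refine Finset.sum_le_sum_of_subset_of_nonneg ?_ fun j _ _ => hf j
  intro j hj
  rw [Finset.mem_filter] at hj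
  exact Finset.mem_range.2 hj.2

theorem pf_KME : T_KME := by
  intro K hK0 α c n0 k b hα hα1 hc hKB hk1 hk hk2 hb hbk N
  have hα2 : α ≤ 1 / 4096 := by
    refine hα1.trans (le_of_eq ?_)
    norm_num
  have hk0 : (0:ℝ) < k := by exact_mod_cast hk1
  have hkα : 0 < (k : ℝ) ^ (-α) := Real.rpow_pos_of_pos hk0 _
  have hup : ∀ n : ℕ, n0 ≤ n → kk K n ≤ 2 * c * (n : ℝ) ^ (-(1 + α)) := by
    intro n hn
    refine (hKB n hn).2.trans ?_
    have : 0 ≤ (n : ℝ) ^ (-(1 + α)) := Real.rpow_nonneg (Nat.cast_nonneg _) _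
    nlinarith [mul_nonneg hc.le this]
  have hlow : ∀ n : ℕ, n0 ≤ n → 7 / 8 * c * (n : ℝ) ^ (-(1 + α)) ≤ kk K n := fun n hn =>
    (hKB n hn).1
  have htail := tail_low' K α c hα (by linarith) hc n0 hlow k hk1 hk
  have hmean := trunc_mean K hK0 α c hα (by linarith) hc n0 hup k hk2
  have hkk1 : (k : ℝ) ^ (1 - α) = k * (k : ℝ) ^ (-α) := by
    rw [show (1 - α) = 1 + (-α) by ring, Real.rpow_add hk0, Real.rpow_one]
  have hmt : ∑ j ∈ Finset.range k, kk K (j + 1) * (((j : ℝ) + 1) / k) ≤ 5 * c * (k : ℝ) ^ (-α) := by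
    have e1 : ∑ j ∈ Finset.range k, kk K (j + 1) * (((j : ℝ) + 1) / k) =
        (∑ j ∈ Finset.range k, ((j : ℝ) + 1) * kk K (j + 1)) / k := by
      rw [Finset.sum_div]
      exact Finset.sum_congr rfl fun j _ => by ring
    rw [e1, div_le_iff₀ hk0]
    refine hmean.trans (le_of_eq ?_)
    rw [hkk1]
    ring
  have hk00 : ∀ n, 0 ≤ k0 K k b n := by
    intro n
    unfold k0
    split_ifs
    · exact khr_nonneg K k b n
    · exact le_refl _
  have hkz : ∀ j, k ≤ j → k0 K k b (j + 1) = 0 := by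
    intro j hj
    unfold k0
    rw [if_neg (by omega)]
  -- one term
  have hterm : ∀ j ∈ Finset.range k, 0 ≤ ((j : ℝ) + 1) / k ∧ ((j : ℝ) + 1) / k ≤ 1 ∧
      k0 K k b (j + 1) ≤ kk K (j + 1) * (1 + ((j : ℝ) + 1) / k / 2) ∧
      Real.exp (((j : ℝ) + 1) / k) ≤ 1 + 2 * (((j : ℝ) + 1) / k) := by
    intro j hj
    rw [Finset.mem_range] at hj
    have hkk := kk_nonneg K (j + 1)
    obtain ⟨t, ht⟩ : ∃ t : ℝ, t = ((j : ℝ) + 1) / k := ⟨_, rfl⟩
    rw [← ht]
    have ht0 : 0 ≤ t := by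
      rw [ht]
      positivity
    have ht1 : t ≤ 1 := by
      rw [ht, div_le_one hk0]
      have : j + 1 ≤ k := by omega
      exact_mod_cast this
    refine ⟨ht0, ht1, ?_, exp_le_one_add_two ht0 ht1⟩
    unfold k0 khr
    rw [if_pos (by omega), if_pos (by omega)]
    push_cast
    have hbt : b * ((j : ℝ) + 1) = b * k * t := by
      rw [ht]
      field_simp
    have hbt0 : 0 ≤ b * k * t := by positivity
    have hbt1 : b * k * t ≤ 1 / 2 * t := mul_le_mul_of_nonneg_right hbk ht0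
    have hexp : Real.exp (b * ((j : ℝ) + 1)) ≤ 1 + t := by
      rw [hbt]
      have := exp_le_one_add_two hbt0 (by linarith)
      linarith
    refine mul_le_mul_of_nonneg_left ?_ hkk
    linarith
  have hs0 := sum_kk_succ K hK0 k
  obtain ⟨q, hq⟩ : ∃ q : ℝ, q = c / α * (k : ℝ) ^ (-α) := ⟨_, rfl⟩
  have hq0 : 0 ≤ q := by
    rw [hq]
    positivity
  have hcq : c * (k : ℝ) ^ (-α) = α * q := by
    rw [hq]
    field_simp
  have hcq5 : 5 * c * (k : ℝ) ^ (-α) = 5 * (α * q) := by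
    rw [← hcq]
    ring
  rw [hcq5] at hmt
  rw [← hq] at htail
  refine ⟨?_, ?_, ?_⟩
  · refine (red _ k (fun j => hk00 (j + 1)) hkz N).trans ?_
    have h1 : ∑ j ∈ Finset.range k, k0 K k b (j + 1) ≤
        ∑ j ∈ Finset.range k, (kk K (j + 1) + 1 / 2 * (kk K (j + 1) * (((j : ℝ) + 1) / k))) := by
      refine Finset.sum_le_sum fun j hj => ?_
      refine (hterm j hj).2.2.1.trans (le_of_eq ?_)
      ring
    refine h1.trans ?_
    rw [Finset.sum_add_distrib, ← Finset.mul_sum, hs0, mul_assoc, ← hq]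
    nlinarith
  · refine (red _ k (fun j => mul_nonneg (hk00 (j + 1)) (Real.exp_pos _).le)
      (fun j hj => by rw [hkz j hj, zero_mul]) N).trans ?_
    have h1 : ∑ j ∈ Finset.range k, k0 K k b (j + 1) * Real.exp (((j : ℝ) + 1) / k) ≤
        ∑ j ∈ Finset.range k, (kk K (j + 1) + 7 / 2 * (kk K (j + 1) * (((j : ℝ) + 1) / k))) := by
      refine Finset.sum_le_sum fun j hj => ?_
      obtain ⟨ht0, ht1, h2, h3⟩ := hterm j hj
      have hkk := kk_nonneg K (j + 1)
      have h4 := mul_le_mul h2 h3 (Real.exp_pos _).le (by positivity)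
      refine h4.trans ?_
      have h5 : (1 + ((j : ℝ) + 1) / k / 2) * (1 + 2 * (((j : ℝ) + 1) / k)) ≤
          1 + 7 / 2 * (((j : ℝ) + 1) / k) := by nlinarith
      calc kk K (j + 1) * (1 + ((j : ℝ) + 1) / k / 2) * (1 + 2 * (((j : ℝ) + 1) / k))
          = kk K (j + 1) * ((1 + ((j : ℝ) + 1) / k / 2) * (1 + 2 * (((j : ℝ) + 1) / k))) := by ring
        _ ≤ kk K (j + 1) * (1 + 7 / 2 * (((j : ℝ) + 1) / k)) := mul_le_mul_of_nonneg_left h5 hkk
        _ = _ := by ring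
    refine h1.trans ?_
    rw [Finset.sum_add_distrib, ← Finset.mul_sum, hs0, mul_assoc, ← hq]
    nlinarith
  · refine (red _ k (fun j => mul_nonneg (by positivity)
      (mul_nonneg (hk00 (j + 1)) (Real.exp_pos _).le))
      (fun j hj => by rw [hkz j hj, zero_mul, mul_zero]) N).trans ?_
    have h1 : ∑ j ∈ Finset.range k, ((j : ℝ) + 1) * (k0 K k b (j + 1) *
        Real.exp (((j : ℝ) + 1) / k)) ≤
        ∑ j ∈ Finset.range k, 9 / 2 * (((j : ℝ) + 1) * kk K (j + 1)) := by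
      refine Finset.sum_le_sum fun j hj => ?_
      obtain ⟨ht0, ht1, h2, h3⟩ := hterm j hj
      have hkk := kk_nonneg K (j + 1)
      have h4 := mul_le_mul h2 h3 (Real.exp_pos _).le (by positivity)
      have h5 : (1 + ((j : ℝ) + 1) / k / 2) * (1 + 2 * (((j : ℝ) + 1) / k)) ≤ 9 / 2 := by
        nlinarith
      have h6 : k0 K k b (j + 1) * Real.exp (((j : ℝ) + 1) / k) ≤ 9 / 2 * kk K (j + 1) := by
        refine h4.trans ?_
        calc kk K (j + 1) * (1 + ((j : ℝ) + 1) / k / 2) * (1 + 2 * (((j : ℝ) + 1) / k))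
            = kk K (j + 1) * ((1 + ((j : ℝ) + 1) / k / 2) * (1 + 2 * (((j : ℝ) + 1) / k))) := by
              ring
          _ ≤ kk K (j + 1) * (9 / 2) := mul_le_mul_of_nonneg_left h5 hkk
          _ = _ := by ring
      calc ((j : ℝ) + 1) * (k0 K k b (j + 1) * Real.exp (((j : ℝ) + 1) / k))
          ≤ ((j : ℝ) + 1) * (9 / 2 * kk K (j + 1)) :=
            mul_le_mul_of_nonneg_left h6 (by positivity)
        _ = _ := by ring
    refine h1.trans ?_
    rw [← Finset.mul_sum]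
    have h2 : 0 ≤ c * (k : ℝ) ^ (1 - α) := by positivity
    nlinarith

end Pool.Agent.H4.CU
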