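import Pool.Agent.H55.CU.Targets

/-!
# The base, pointwise: board `cou_modules`, row `VBP`
-/

set_option autoImplicit false

open MeasureTheory ProbabilityTheory Filter Topology
open scoped ENNReal
open Pool.Agent.H95 Pool.Agent.H95.Cop Pool.Agent.H96.Cop Pool.Agent.H55.CU

namespace Pool.Agent.H4.CU

theorem conv {v : ℕ → ℝ} (hv : ∀ a, 0 ≤ v a) {M : ℝ}
    (hM : ∀ n, ∑ a ∈ Finset.range n, v a ≤ M) (s : Finset ℕ) (p : ℕ → Prop) [DecidablePred p]
    (φ : ℕ → ℕ) (hφ : ∀ i i', p i → p i' → φ i = φ i' → i = i') :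
    ∑ i ∈ s, (if p i then v (φ i) else 0) ≤ M := by
  have h1 : ∑ i ∈ s, (if p i then v (φ i) else 0) = ∑ x ∈ (s.filter p).image φ, v x := by
    rw [← Finset.sum_filter, Finset.sum_image]
    intro i hi i' hi' h
    rw [Finset.mem_coe, Finset.mem_filter] at hi hi'
    exact hφ i i' hi.2 hi'.2 h
  obtain ⟨n, hn⟩ := Finset.exists_nat_subset_range ((s.filter p).image φ)
  rw [h1]
  exact (Finset.sum_le_sum_of_subset_of_nonneg hn fun x _ _ => hv x).trans (hM n)

theorem sq_exp_two {a : ℝ} : (1 + a) ^ 2 ≤ 2 * Real.exp a ∨ a < 0 := by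
  by_cases ha : 0 ≤ a
  · left
    have h1 : (1 + a) / 2 ≤ Real.exp ((a - 1) / 2) := by
      have := Real.add_one_le_exp ((a - 1) / 2)
      linarith
    have h2 : ((1 + a) / 2) ^ 2 ≤ Real.exp ((a - 1) / 2) ^ 2 :=
      pow_le_pow_left₀ (by linarith) h1 2
    have h3 : Real.exp ((a - 1) / 2) ^ 2 = Real.exp a * Real.exp (-1) := by
      rw [← Real.exp_nat_mul, ← Real.exp_add]
      congr 1
      push_cast
      ring
    have h4 : Real.exp (-1) ≤ 1 / 2 := by
      rw [Real.exp_neg, one_div]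
      refine inv_anti₀ (by norm_num) ?_
      have := Real.add_one_le_exp (1 : ℝ)
      linarith
    have h5 : Real.exp a * Real.exp (-1) ≤ Real.exp a * (1 / 2) :=
      mul_le_mul_of_nonneg_left h4 (Real.exp_pos _).le
    rw [h3] at h2
    nlinarith
  · right
    linarith

theorem sq_exp_16 {a : ℝ} (ha : 0 ≤ a) : (1 + a) ^ 2 ≤ 256 * Real.exp (a / 16) := by
  have h1 : (1 + a) / 32 ≤ Real.exp ((1 + a) / 32 - 1) := by
    have := Real.add_one_le_exp ((1 + a) / 32 - 1)
    linarith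
  have h2 : ((1 + a) / 32) ^ 2 ≤ Real.exp ((1 + a) / 32 - 1) ^ 2 :=
    pow_le_pow_left₀ (by linarith) h1 2
  have h3 : Real.exp ((1 + a) / 32 - 1) ^ 2 = Real.exp (a / 16) * Real.exp (-(31 / 16)) := by
    rw [← Real.exp_nat_mul, ← Real.exp_add]
    congr 1
    push_cast
    ring
  have h4 : Real.exp (-(31 / 16)) ≤ 1 / 4 := by
    rw [Real.exp_neg, one_div]
    refine inv_anti₀ (by norm_num) ?_
    have := Real.quadratic_le_exp_of_nonneg (by norm_num : (0 : ℝ) ≤ 31 / 16)
    norm_num at this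
    linarith
  have h5 : Real.exp (a / 16) * Real.exp (-(31 / 16)) ≤ Real.exp (a / 16) * (1 / 4) :=
    mul_le_mul_of_nonneg_left h4 (Real.exp_pos _).le
  rw [h3] at h2
  nlinarith

theorem pf_VBP (hGAS : T_GAS) (hVBA : T_VBA) : T_VBP := by
  intro α v0 v hα hα1 hv0 hv hm0 hp0 hrec
  obtain ⟨hg0, hgs, hgp⟩ := hGAS α hα hα1
  obtain ⟨hM, -⟩ := hVBA α v0 v hα hα1 hv0 hv hm0 hrec
  have hα2 : α ≤ 1 / 4096 := by
    refine hα1.trans (le_of_eq ?_)
    norm_num
  have hαG : α * (9 / 16 * (2 + 1 / α)) = 9 / 16 * (1 + 2 * α) := by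
    field_simp
    ring
  -- the constant of the first part
  obtain ⟨C8, hC8⟩ : ∃ C8 : ℝ, C8 = (7 / 8 : ℝ) ^ (-(1 + α)) := ⟨_, rfl⟩
  have hC80 : 0 ≤ C8 := by
    rw [hC8]
    exact Real.rpow_nonneg (by norm_num) _
  have hC81 : C8 ≤ 8 / 7 * (1 + α / 7) := by
    have e1 : (7 / 8 : ℝ) ^ (-(1 + α)) = (8 / 7 : ℝ) ^ (1 + α) := by
      rw [Real.rpow_neg (by norm_num), ← Real.inv_rpow (by norm_num)]
      norm_num
    have h1 : (1 + (1 / 7 : ℝ)) ^ α ≤ 1 + α * (1 / 7) :=
      rpow_one_add_le_one_add_mul_self (by norm_num) hα.le (by linarith)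
    have e2 : (1 + (1 / 7 : ℝ)) = 8 / 7 := by norm_num
    rw [e2] at h1
    rw [hC8, e1, Real.rpow_add (by norm_num), Real.rpow_one]
    have := mul_le_mul_of_nonneg_left h1 (by norm_num : (0 : ℝ) ≤ 8 / 7)
    linarith
  intro a
  induction a using Nat.strong_induction_on with
  | _ a ih =>
  intro ha
  have har : (1 : ℝ) ≤ a := by exact_mod_cast ha
  obtain ⟨F, hF⟩ : ∃ F : ℝ, F = (1 + (a : ℝ)) ^ (-(1 + α)) := ⟨_, rfl⟩
  have hF0 : 0 < F := by
    rw [hF]
    exact Real.rpow_pos_of_pos (by linarith) _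
  rw [← hF]
  have hFp : ∀ y : ℝ, (1 + (a : ℝ)) ^ 2 ≤ y → 1 ≤ y * F := by
    intro y hy
    have h1 : (1 + (a : ℝ)) ^ (1 + α) ≤ (1 + (a : ℝ)) ^ 2 := by
      rw [← Real.rpow_two]
      exact Real.rpow_le_rpow_of_exponent_le (by linarith) (by linarith)
    have h2 : F * (1 + (a : ℝ)) ^ (1 + α) = 1 := by
      rw [hF, ← Real.rpow_add (by linarith)]
      have : -(1 + α) + (1 + α) = 0 := by ring
      rw [this, Real.rpow_zero]
    have h3 : F * (1 + (a : ℝ)) ^ (1 + α) ≤ F * y :=
      mul_le_mul_of_nonneg_left (h1.trans hy) hF0.le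
    linarith [mul_comm F y]
  obtain ⟨E, hE⟩ : ∃ E : ℝ, E = 2 ^ 19 * (C8 * (α ^ 2 * F)) := ⟨_, rfl⟩
  have hE0 : 0 ≤ E := by
    rw [hE]
    positivity
  obtain ⟨c2, hc2⟩ : ∃ c2 : ℝ, c2 = 123 * α ^ 2 * Real.exp (-((a : ℝ) / 16)) := ⟨_, rfl⟩
  have hc20 : 0 ≤ c2 := by
    rw [hc2]
    positivity
  have hterm : ∀ i ∈ Finset.range (a + 1), ∀ j ∈ Finset.Icc 1 a,
      (if i + j ≤ a then v0 i * ga α j * v (a - i - j) else 0) ≤
      (v0 i * (ga α j * E) + c2 * (ga α j * (if i + j ≤ a then v (a - i - j) else 0))) +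
        37 * F * (v0 i * (if i + j ≤ a then v (a - i - j) else 0)) := by
    intro i _ j hj
    rw [Finset.mem_Icc] at hj
    have g0 := hg0 j
    have w0 := hv0 i
    by_cases hij : i + j ≤ a
    · rw [if_pos hij, if_pos hij]
      have u0 := hv (a - i - j)
      have a1 : 0 ≤ v0 i * (ga α j * E) := by positivity
      have a2 : 0 ≤ c2 * (ga α j * v (a - i - j)) := by positivity
      have a3 : 0 ≤ 37 * F * (v0 i * v (a - i - j)) := by positivity
      by_cases h8 : 8 * (i + j) ≤ a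
      · have hlt : a - i - j < a := by omega
        have h1 := ih (a - i - j) hlt (by omega)
        have h2 : (1 + ((a - i - j : ℕ) : ℝ)) ^ (-(1 + α)) ≤ C8 * F := by
          rw [hC8, hF, ← Real.mul_rpow (by norm_num) (by linarith)]
          refine Real.rpow_le_rpow_of_nonpos (by positivity) ?_ (by linarith)
          have h3 : 7 * a ≤ 8 * (a - i - j) := by omega
          have h4 : 7 * (a : ℝ) ≤ 8 * ((a - i - j : ℕ) : ℝ) := by exact_mod_cast h3
          linarith
        have h5 : v (a - i - j) ≤ E := by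
          refine h1.trans ?_
          rw [hE]
          have h6 : α ^ 2 * (1 + ((a - i - j : ℕ) : ℝ)) ^ (-(1 + α)) ≤ α ^ 2 * (C8 * F) :=
            mul_le_mul_of_nonneg_left h2 (by positivity)
          linarith
        have h6 : v0 i * ga α j * v (a - i - j) ≤ v0 i * ga α j * E :=
          mul_le_mul_of_nonneg_left h5 (by positivity)
        linarith
      · by_cases h16 : a < 16 * i
        · have hi1 : 1 ≤ i := by omega
          have h1 := hp0 i hi1
          have h2 : v0 i ≤ c2 := by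
            refine h1.trans ?_
            rw [hc2]
            refine mul_le_mul_of_nonneg_left ?_ (by positivity)
            rw [Real.exp_le_exp]
            have : (a : ℝ) < 16 * i := by exact_mod_cast h16
            linarith
          have h3 : v0 i * (ga α j * v (a - i - j)) ≤ c2 * (ga α j * v (a - i - j)) :=
            mul_le_mul_of_nonneg_right h2 (by positivity)
          linarith
        · have h1 := hgp a j hj.1 ha (by omega)
          rw [← hF] at h1
          have h2 : ga α j * (v0 i * v (a - i - j)) ≤ 37 * F * (v0 i * v (a - i - j)) :=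
            mul_le_mul_of_nonneg_right h1 (by positivity)
          linarith
    · rw [if_neg hij, if_neg hij, mul_zero, mul_zero, mul_zero, mul_zero]
      have : 0 ≤ v0 i * (ga α j * E) := by positivity
      linarith
  have hS : ∑ i ∈ Finset.range (a + 1), ∑ j ∈ Finset.Icc 1 a,
      (if i + j ≤ a then v0 i * ga α j * v (a - i - j) else 0) ≤
      ((16 / 13 * α) * (9 / 16 * (2 + 1 / α) * E) + c2 * (9 / 16 * (2 + 1 / α) * (5 * α))) +
        37 * F * ((16 / 13 * α) * (5 * α)) := by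
    refine (Finset.sum_le_sum fun i hi => Finset.sum_le_sum fun j hj => hterm i hi j hj).trans ?_
    simp only [Finset.sum_add_distrib]
    have hG0 : 0 ≤ 9 / 16 * (2 + 1 / α) := by positivity
    refine add_le_add (add_le_add ?_ ?_) ?_
    · have e1 : ∑ i ∈ Finset.range (a + 1), ∑ j ∈ Finset.Icc 1 a, v0 i * (ga α j * E) =
          (∑ i ∈ Finset.range (a + 1), v0 i) * ((∑ j ∈ Finset.Icc 1 a, ga α j) * E) := by
        rw [Finset.sum_mul]
        refine Finset.sum_congr rfl fun i _ => ?_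
        rw [← Finset.mul_sum, Finset.sum_mul]
      rw [e1]
      refine mul_le_mul (hm0 _) (mul_le_mul_of_nonneg_right (hgs a) hE0) ?_ (by positivity)
      exact mul_nonneg (Finset.sum_nonneg fun j _ => hg0 j) hE0
    · rw [Finset.sum_comm]
      have e1 : ∑ j ∈ Finset.Icc 1 a, ∑ i ∈ Finset.range (a + 1),
          c2 * (ga α j * (if i + j ≤ a then v (a - i - j) else 0)) =
          c2 * ∑ j ∈ Finset.Icc 1 a, ga α j * ∑ i ∈ Finset.range (a + 1),
            (if i + j ≤ a then v (a - i - j) else 0) := by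
        rw [Finset.mul_sum]
        refine Finset.sum_congr rfl fun j _ => ?_
        rw [Finset.mul_sum, Finset.mul_sum]
      rw [e1]
      refine mul_le_mul_of_nonneg_left ?_ hc20
      have h1 : ∑ j ∈ Finset.Icc 1 a, ga α j * ∑ i ∈ Finset.range (a + 1),
            (if i + j ≤ a then v (a - i - j) else 0) ≤
          ∑ j ∈ Finset.Icc 1 a, ga α j * (5 * α) := by
        refine Finset.sum_le_sum fun j _ => mul_le_mul_of_nonneg_left ?_ (hg0 j)
        exact conv hv hM (Finset.range (a + 1)) (fun i => i + j ≤ a) (fun i => a - i - j)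
          (fun i i' h h' he => by omega)
      refine h1.trans ?_
      rw [← Finset.sum_mul]
      exact mul_le_mul_of_nonneg_right (hgs a) (by positivity)
    · have e1 : ∑ i ∈ Finset.range (a + 1), ∑ j ∈ Finset.Icc 1 a,
          37 * F * (v0 i * (if i + j ≤ a then v (a - i - j) else 0)) =
          37 * F * ∑ i ∈ Finset.range (a + 1), v0 i * ∑ j ∈ Finset.Icc 1 a,
            (if i + j ≤ a then v (a - i - j) else 0) := by
        rw [Finset.mul_sum]
        refine Finset.sum_congr rfl fun i _ => ?_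
        rw [Finset.mul_sum, Finset.mul_sum]
      rw [e1]
      refine mul_le_mul_of_nonneg_left ?_ (by positivity)
      have h1 : ∑ i ∈ Finset.range (a + 1), v0 i * ∑ j ∈ Finset.Icc 1 a,
            (if i + j ≤ a then v (a - i - j) else 0) ≤
          ∑ i ∈ Finset.range (a + 1), v0 i * (5 * α) := by
        refine Finset.sum_le_sum fun i _ => mul_le_mul_of_nonneg_left ?_ (hv0 i)
        exact conv hv hM (Finset.Icc 1 a) (fun j => i + j ≤ a) (fun j => a - i - j)
          (fun j j' h h' he => by omega)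
      refine h1.trans ?_
      rw [← Finset.sum_mul]
      exact mul_le_mul_of_nonneg_right (hm0 _) (by positivity)
  -- numbers
  have hαF : 0 < α ^ 2 * F := by positivity
  have p1 : (16 / 13 * α) * (9 / 16 * (2 + 1 / α) * E) ≤ 4 / 5 * (2 ^ 19 * (α ^ 2 * F)) := by
    have e1 : (16 / 13 * α) * (9 / 16 * (2 + 1 / α) * E) =
        16 / 13 * (α * (9 / 16 * (2 + 1 / α))) * E := by ring
    rw [e1, hαG, hE]
    have h1 : 16 / 13 * (9 / 16 * (1 + 2 * α)) * C8 ≤ 4 / 5 := by
      have h2 : 16 / 13 * (9 / 16 * (1 + 2 * α)) * C8 ≤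
          16 / 13 * (9 / 16 * (1 + 2 * α)) * (8 / 7 * (1 + α / 7)) :=
        mul_le_mul_of_nonneg_left hC81 (by positivity)
      refine h2.trans ?_
      nlinarith
    calc 16 / 13 * (9 / 16 * (1 + 2 * α)) * (2 ^ 19 * (C8 * (α ^ 2 * F)))
        = (16 / 13 * (9 / 16 * (1 + 2 * α)) * C8) * (2 ^ 19 * (α ^ 2 * F)) := by ring
      _ ≤ 4 / 5 * (2 ^ 19 * (α ^ 2 * F)) := mul_le_mul_of_nonneg_right h1 (by positivity)
  have p2 : c2 * (9 / 16 * (2 + 1 / α) * (5 * α)) ≤ 369 * 256 * (α ^ 2 * F) := by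
    have e1 : c2 * (9 / 16 * (2 + 1 / α) * (5 * α)) =
        c2 * (5 * (α * (9 / 16 * (2 + 1 / α)))) := by ring
    rw [e1, hαG, hc2]
    have h1 : Real.exp (-((a : ℝ) / 16)) ≤ 256 * F := by
      have h2 := hFp _ (sq_exp_16 (by linarith : (0 : ℝ) ≤ a))
      have h3 : Real.exp (-((a : ℝ) / 16)) * Real.exp ((a : ℝ) / 16) = 1 := by
        rw [← Real.exp_add, neg_add_cancel, Real.exp_zero]
      have h4 := mul_le_mul_of_nonneg_left h2 (Real.exp_pos (-((a : ℝ) / 16))).le
      calc Real.exp (-((a : ℝ) / 16)) = Real.exp (-((a : ℝ) / 16)) * 1 := (mul_one _).symm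
        _ ≤ Real.exp (-((a : ℝ) / 16)) * (256 * Real.exp ((a : ℝ) / 16) * F) := h4
        _ = 256 * F * (Real.exp (-((a : ℝ) / 16)) * Real.exp ((a : ℝ) / 16)) := by ring
        _ = 256 * F := by rw [h3, mul_one]
    have h5 : 5 * (9 / 16 * (1 + 2 * α)) ≤ 3 := by linarith
    calc 123 * α ^ 2 * Real.exp (-((a : ℝ) / 16)) * (5 * (9 / 16 * (1 + 2 * α)))
        ≤ 123 * α ^ 2 * (256 * F) * 3 := by
          refine mul_le_mul ?_ h5 (by positivity) (by positivity)
          exact mul_le_mul_of_nonneg_left h1 (by positivity)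
      _ = 369 * 256 * (α ^ 2 * F) := by ring
  have p3 : 37 * F * ((16 / 13 * α) * (5 * α)) ≤ 228 * (α ^ 2 * F) := by
    have e1 : 37 * F * ((16 / 13 * α) * (5 * α)) = 2960 / 13 * (α ^ 2 * F) := by ring
    rw [e1]
    linarith
  have p0 : v0 a ≤ 246 * (α ^ 2 * F) := by
    refine (hp0 a ha).trans ?_
    have h1 : Real.exp (-(a : ℝ)) ≤ 2 * F := by
      have h2 : (1 + (a : ℝ)) ^ 2 ≤ 2 * Real.exp a := by
        rcases sq_exp_two (a := (a : ℝ)) with h | h
        · exact h
        · linarith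
      have h2 := hFp _ h2
      have h3 : Real.exp (-(a : ℝ)) * Real.exp (a : ℝ) = 1 := by
        rw [← Real.exp_add, neg_add_cancel, Real.exp_zero]
      have h4 := mul_le_mul_of_nonneg_left h2 (Real.exp_pos (-(a : ℝ))).le
      calc Real.exp (-(a : ℝ)) = Real.exp (-(a : ℝ)) * 1 := (mul_one _).symm
        _ ≤ Real.exp (-(a : ℝ)) * (2 * Real.exp (a : ℝ) * F) := h4
        _ = 2 * F * (Real.exp (-(a : ℝ)) * Real.exp (a : ℝ)) := by ring
        _ = 2 * F := by rw [h3, mul_one]
    calc 123 * α ^ 2 * Real.exp (-(a : ℝ)) ≤ 123 * α ^ 2 * (2 * F) :=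
          mul_le_mul_of_nonneg_left h1 (by positivity)
      _ = 246 * (α ^ 2 * F) := by ring
  have hr := hrec a
  have hfin : v a ≤ 246 * (α ^ 2 * F) + ((4 / 5 * (2 ^ 19 * (α ^ 2 * F)) +
      369 * 256 * (α ^ 2 * F)) + 228 * (α ^ 2 * F)) := by
    refine hr.trans (add_le_add p0 (hS.trans ?_))
    exact add_le_add (add_le_add p1 p2) p3
  refine hfin.trans ?_
  norm_num
  nlinarith

end Pool.Agent.H4.CU
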